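import Mathlib

/-!
A poset with 21 elements (the faces of a piece of a triangulated Moebius band) that has the fixed
point property: the kernel checks a search tree with arc consistency steps.
-/

set_option autoImplicit false

namespace Pool.Agent.TH447.UN

/-- the order relation as a table: bit `21 a + b` is set iff `a ≤ b` -/
def tbl : ℕ := 0x1000004000010000040000100000400001000284001810009040024100090400601000a04003010396441629104a2446c7010d86841c0c1

def leB (a b : ℕ) : Bool := Nat.testBit tbl (21 * a + b)

/-- The poset. -/
structure X where
  val : Fin 21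
deriving DecidableEq

def X.equiv : X ≃ Fin 21 := ⟨X.val, X.mk, fun _ => rfl, fun _ => rfl⟩

instance : Fintype X := Fintype.ofEquiv _ X.equiv.symm

theorem leB_refl : ∀ a : Fin 21, leB a a = true := by decide +kernel

theorem leB_trans : ∀ a b c : Fin 21, leB a b = true → leB b c = true → leB a c = true := by
  decide +kernel

theorem leB_antisymm : ∀ a b : Fin 21, leB a b = true → leB b a = true → a = b := by
  decide +kernel

instance : PartialOrder X where
  le a b := leB a.val b.val = true
  le_refl a := leB_refl a.val
  le_trans a b c := leB_trans a.val b.val c.val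
  le_antisymm a b h1 h2 := by
    have := leB_antisymm a.val b.val h1 h2
    cases a; cases b; simp_all

theorem le_def (a b : X) : a ≤ b ↔ leB a.val b.val = true := Iff.rfl

/-- Certificates: `steps` are codes `2 (21 a + b) + d` for revising the domain of `a` (`d = 0`) or
of `b` (`d = 1`) along `a ≤ b`. -/
inductive Tr where
  | leaf (steps : List ℕ) (a : ℕ) : Tr
  | split (steps : List ℕ) (a : ℕ) (ts : List Tr) : Tr

/-- revise one domain -/
def step (D : List (List ℕ)) (c : ℕ) : List (List ℕ) :=
  let a := c / 2 / 21
  let b := c / 2 % 21
  if leB a b = false ∨ 21 ≤ a then D else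
  if c % 2 = 0 then
    D.set a ((D.getD a []).filter fun x => (D.getD b []).any fun y => leB x y)
  else
    D.set b ((D.getD b []).filter fun y => (D.getD a []).any fun x => leB x y)

def steps (D : List (List ℕ)) (l : List ℕ) : List (List ℕ) := l.foldl step D

mutual
def check (D : List (List ℕ)) : Tr → Bool
  | .leaf l a => ((steps D l).getD a []).isEmpty && Nat.ble (a + 1) 21
  | .split l a ts => Nat.ble (a + 1) 21 && checks (steps D l) a ((steps D l).getD a []) ts
def checks (D : List (List ℕ)) (a : ℕ) : List ℕ → List Tr → Bool
  | [], _ => true
  | _ :: _, [] => false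
  | v :: vs, t :: ts => check (D.set a [v]) t && checks D a vs ts
end

/-- `D` is a vector of domains for `F`. -/
def Good (F : ℕ → ℕ) (D : List (List ℕ)) : Prop := D.length = 21 ∧ ∀ a < 21, F a ∈ D.getD a []

theorem getD_set {D : List (List ℕ)} {a b : ℕ} {l : List ℕ} (ha : a < D.length) :
    (D.set a l).getD b [] = if a = b then l else D.getD b [] := by
  simp only [List.getD_eq_getElem?_getD, List.getElem?_set]
  split_ifs with h <;> simp_all

theorem good_step {F : ℕ → ℕ} (hF : ∀ a < 21, ∀ b < 21, leB a b = true → leB (F a) (F b) = true)
    {D : List (List ℕ)} (hD : Good F D) (c : ℕ) : Good F (step D c) := by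
  unfold step
  simp only []
  split_ifs with h1 h2
  · exact hD
  · obtain ⟨hl, hm⟩ := hD
    push Not at h1
    obtain ⟨h1, ha⟩ := h1
    · refine ⟨by simpa using hl, ?_⟩
      intro i hi
      rw [getD_set (by omega)]
      split_ifs with h
      · subst h
        rw [List.mem_filter]
        refine ⟨hm _ hi, ?_⟩
        rw [List.any_eq_true]
        exact ⟨_, hm _ (Nat.mod_lt _ (by norm_num)), hF _ hi _ (Nat.mod_lt _ (by norm_num))
          (by simpa using h1)⟩
      · exact hm i hi
  · obtain ⟨hl, hm⟩ := hD
    push Not at h1
    obtain ⟨h1, ha⟩ := h1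
    · refine ⟨by simpa using hl, ?_⟩
      intro i hi
      have hb : c / 2 % 21 < 21 := Nat.mod_lt _ (by norm_num)
      rw [getD_set (by omega)]
      split_ifs with h
      · rw [List.mem_filter, ← h]
        refine ⟨hm _ hb, ?_⟩
        rw [List.any_eq_true]
        exact ⟨_, hm _ ha, hF _ ha _ hb (by simpa using h1)⟩
      · exact hm i hi

theorem good_steps {F : ℕ → ℕ}
    (hF : ∀ a < 21, ∀ b < 21, leB a b = true → leB (F a) (F b) = true) (l : List ℕ) :
    ∀ {D : List (List ℕ)}, Good F D → Good F (steps D l) := by
  induction l with
  | nil => intro D hD; exact hD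
  | cons c l ih => intro D hD; exact ih (good_step hF hD c)

mutual
theorem check_sound {F : ℕ → ℕ}
    (hF : ∀ a < 21, ∀ b < 21, leB a b = true → leB (F a) (F b) = true) :
    ∀ (t : Tr) (D : List (List ℕ)), Good F D → check D t = true → False
  | .leaf l a, D, hD, h => by
      simp only [check, Bool.and_eq_true, List.isEmpty_iff] at h
      have h1 := (good_steps hF l hD).2 a (Nat.le_of_ble_eq_true h.2)
      rw [h.1] at h1
      simp at h1
  | .split l a ts, D, hD, h => by
      simp only [check, Bool.and_eq_true] at h
      have ha : a < 21 := Nat.le_of_ble_eq_true h.1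
      have hg := good_steps hF l hD
      exact checks_sound hF ts _ a ha hg _ (hg.2 a ha) h.2
theorem checks_sound {F : ℕ → ℕ}
    (hF : ∀ a < 21, ∀ b < 21, leB a b = true → leB (F a) (F b) = true) :
    ∀ (ts : List Tr) (D : List (List ℕ)) (a : ℕ), a < 21 → Good F D →
      ∀ vs : List ℕ, F a ∈ vs → checks D a vs ts = true → False
  | [], D, a, ha, hD, vs, hv, h => by
      cases vs with
      | nil => simp at hv
      | cons v vs => simp [checks] at h
  | t :: ts, D, a, ha, hD, vs, hv, h => by
      cases vs with
      | nil => simp at hv
      | cons v vs =>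
        simp only [checks, Bool.and_eq_true] at h
        rcases List.mem_cons.1 hv with h1 | h1
        · refine check_sound hF t _ ?_ h.1
          refine ⟨by simpa using hD.1, ?_⟩
          intro i hi
          rw [getD_set (by rw [hD.1]; exact ha)]
          split_ifs with h2
          · rw [← h2, h1]; simp
          · exact hD.2 i hi
        · exact checks_sound hF ts D a ha hD vs h1 h.2
end

/-- the domains: elements incomparable to `a` -/
def D0 : List (List ℕ) :=
  (List.range 21).map fun a => (List.range 21).filter fun b => !leB a b && !leB b a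

def cert : Tr :=
  (.split [] 5 [(.leaf [229,235,237,409,415,543,545,60,108,194,282,372,458,502,12,15,59,140,146,147,281,327,371,452,453,459,542,104,107,109,141,190,323,497,503,586,185,280,370,371,54,59,61,184,191,371,373,496,497,582,106,370,58,105,146,453,55,141,281,322] 7),(.leaf [229,235,237,409,415,543,545,60,194,282,372,458,502,12,55,59,146,190,281,322,371,496,106,140,147,185,371,373,414,496,582,58,106,409,55,105,281,322,327,452,453,12,15,104,107,140,147,327,452,459,497,542,104,107,109,146,190,497,503,586,141,185,323,370,371,58,280,54] 1),(.leaf [229,235,237,409,415,543,545,108,194,282,372,458,502,12,105,107,146,184,191,453,497,503,544,586,106,326,370,543,14,58,105,146,453,13,55,141,281,323,14,280,283,408,12,15,54,59,61,184,191,327,371,373,452,496,497,582,104,106] 2),(.leaf [229,235,237,409,415,543,545,60,108,194,282,372,458,502,12,15,107,146,281,327,452,453,497,104,107,109,141,190,323,497,503,586,14,185,280,283,370,371,408,54,58,59,61,184,191,371,373,496,582,55,106,281,322,327,452,459,542,12,104] 2),(.leaf [229,235,237,409,415,543,545,60,108,194,282,372,458,502,12,146,184,185,190] 4),(.leaf [229,235,237,409,415,543,545,60,108,194,282,372,458,502,12,15,59,140,146,147,281,327,371,452,459,542,104,107,109,141,190,323,497,503,586,185,280,370,371,54,58]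 1),(.leaf [229,235,237,409,415,543,545,60,108,194,282,372,458,502,12,15,140,146,147,281,327,371,452,453,459,497,542,104,107,109,141,190,323,497,503,586,14,185,280,283,370,408,54,58] 1),(.leaf [229,235,237,409,415,543,545,60,108,194,282,372,458,502,12,55,146,184,190] 4),(.leaf [229,235,237,409,415,543,545,60,108,194,282,372,458,502,12,15,107,146,281,327,452,453,497,104,107,109,141,190,323,497,503,586,14,185,280,283,370,408,54,58] 1),(.leaf [229,235,237,409,415,543,545,60,108,194,282,372,458,502,12,105,146,184,185,190] 4),(.leaf [229,235,237,409,415,543,545,60,108,194,282,372,458,502,12,15,140,146] 3),(.leaf [229,235,237,409,415,543,545,60,108,194,282,372,458,502,12,15,140,146] 3),(.leaf [229,235,237,409,415,543,545,60,108,194,282,372,458,502,12,15,146,184,190] 4)])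

theorem check_cert : check D0 cert = true := by decide +kernel

end Pool.Agent.TH447.UN
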